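import Pool.Agent.U374.Tr.Unr
set_option autoImplicit false

/-!
Fibrations `W(z) = λ g ∏_(j,i) P_(j,i) ^ (w_(j,i) + 1)`, where `P_(j,i)` is a monic polynomial in
`x_j` whose coefficients are polynomials in `x_0, ..., x_(j-1)`: definitions.
-/

namespace Pool.Agent.U374.Mn

open Pool.Agent.TH826.MK (KQ symb Unramified Torus)

open Pool.Agent.N65.TL (LP Interior Tame esum)

open Pool.Agent.U374.Tr (QOpen instCommRingQOpen qcst qz qdiv)

/-- The data of a family `W(z) = λ g ∏_(j,i) P_(j,i) ^ (w_(j,i) + 1)`, `0 ≤ j ≤ d`,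
`0 ≤ i ≤ r_j`. -/
structure Sys (K : Type*) [Field K] (s d : ℕ) where
  /-- the Laurent polynomial `W` in `z_0, ..., z_s` -/
  W : LP K (s + 1)
  /-- the polynomial `g` in `x_0, ..., x_d` -/
  g : MvPolynomial (Fin (d + 1)) K
  /-- the numbers `r_j` -/
  r : Fin (d + 1) → ℕ
  /-- the polynomials `P_(j,i)` -/
  P : (j : Fin (d + 1)) → Fin (r j + 1) → MvPolynomial (Fin (d + 1)) K
  /-- the degrees of the polynomials `P_(j,i)` in `x_j` -/
  deg : (j : Fin (d + 1)) → Fin (r j + 1) → ℕ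
  /-- the exponents minus one -/
  w : (j : Fin (d + 1)) → Fin (r j + 1) → ℕ

namespace Sys

variable {K : Type*} [Field K] {s d : ℕ} (A : Sys K s d)

/-- The conditions on the family. -/
structure Admissible (A : Sys K s d) : Prop where
  /-- the origin is an interior point of the Newton polytope of `W` -/
  interior : Interior A.W
  /-- `W` divides a product of polynomials of simplex type -/
  tame : Tame A.W
  /-- `g` has integral coefficients -/
  g_int : ∀ k, IsIntegral ℤ (A.g.coeff k)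
  /-- the `P_(j,i)` have integral coefficients -/
  P_int : ∀ j i k, IsIntegral ℤ ((A.P j i).coeff k)
  /-- `P_(j,i)` is a polynomial in `x_0, ..., x_j` -/
  P_vars : ∀ j i, ∀ l ∈ (A.P j i).vars, l ≤ j
  /-- the degrees in `x_j` are positive -/
  deg_pos : ∀ j i, 0 < A.deg j i
  /-- `P_(j,i)` is monic in `x_j` -/
  monic : ∀ j i, (A.P j i - MvPolynomial.X j ^ A.deg j i).degreeOf j < A.deg j i

/-- The selections `T` of one index `1 ≤ T_j ≤ r_j` for every `j` (as numbers `T_j - 1 < r_j`). -/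
abbrev Sel : Type := (j : Fin (d + 1)) → Fin (A.r j)

/-- There is a complex point `x` at which all `P_(j,T_j)` vanish, but not their derivatives
`∂P_(j,T_j)/∂x_j`, and the other polynomials `P_(j,i)` and `g` do not vanish. -/
def HasVertex (σ : K →+* ℂ) (T : A.Sel) : Prop :=
  ∃ x : Fin (d + 1) → ℂ,
    (∀ j, MvPolynomial.eval₂ σ x (A.P j (T j).succ) = 0) ∧
    (∀ j, MvPolynomial.eval₂ σ x (MvPolynomial.pderiv j (A.P j (T j).succ)) ≠ 0) ∧
    (∀ j i, i ≠ (T j).succ → MvPolynomial.eval₂ σ x (A.P j i) ≠ 0) ∧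
    MvPolynomial.eval₂ σ x A.g ≠ 0

/-- The pairs `(j, i)`. -/
abbrev Ix : Type := (j : Fin (d + 1)) × Fin (A.r j + 1)

/-- The polynomial `g ∏ P_(j,i) ^ (w_(j,i) + 1)`. -/
noncomputable def Phi0 : MvPolynomial (Fin (d + 1)) K :=
  A.g * ∏ e : A.Ix, A.P e.1 e.2 ^ (A.w e.1 e.2 + 1)

/-- The polynomial `Φ = λ g ∏ P_(j,i) ^ (w_(j,i) + 1)`. -/
noncomputable def Phi (lam : K) : MvPolynomial (Fin (d + 1)) K := MvPolynomial.C lam * A.Phi0

/-- The coordinate ring of the open part `Φ ≠ 0` of the hypersurface `W(z) = Φ(x)`, `z_i ≠ 0`. -/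
def Open (lam : K) : Type _ := QOpen A.W (A.Phi lam) (A.Phi lam)

noncomputable instance (lam : K) : CommRing (A.Open lam) :=
  instCommRingQOpen A.W (A.Phi lam) (A.Phi lam)

/-- The constants as functions on the open part. -/
noncomputable def cst (lam : K) : K →+* A.Open lam := qcst A.W (A.Phi lam) (A.Phi lam)

theorem P_dvd (lam : K) (e : A.Ix) : A.P e.1 e.2 ∣ A.Phi lam :=
  Dvd.dvd.mul_left (Dvd.dvd.mul_left ((dvd_pow_self _ (Nat.succ_ne_zero _)).trans
    (Finset.dvd_prod_of_mem (fun e : A.Ix => A.P e.1 e.2 ^ (A.w e.1 e.2 + 1))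
      (Finset.mem_univ e))) _) _

/-- The units `z_i`. -/
noncomputable def z (lam : K) (i : Fin (s + 1)) : (A.Open lam)ˣ :=
  qz A.W (A.Phi lam) (A.Phi lam) i

/-- The units `P_(j,i)`. -/
noncomputable def L (lam : K) (e : A.Ix) : (A.Open lam)ˣ :=
  qdiv A.W (A.Phi lam) (A.P_dvd lam e)

/-- The units `P_(j,i) ^ deg_j(P_(j,0)) / P_(j,0) ^ deg_j(P_(j,i))`. -/
noncomputable def u (lam : K) (j : Fin (d + 1)) (i : Fin (A.r j + 1)) : (A.Open lam)ˣ :=
  A.L lam ⟨j, i⟩ ^ A.deg j 0 / A.L lam ⟨j, 0⟩ ^ A.deg j i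

/-- The symbol `{z_0, ..., z_s, u_(0,T_0), ..., u_(d,T_d)}` in the Milnor K-theory of the open
part, where `u_(j,i) = P_(j,i) ^ deg_j(P_(j,0)) / P_(j,0) ^ deg_j(P_(j,i))`. -/
noncomputable def sym (lam : K) (T : A.Sel) :
    KQ (A.Open lam) (s + (d + 1) + 1) :=
  symb fun l => Sum.elim (A.z lam) (fun j => A.u lam j (T j).succ) ((esum s d).symm l)

end Sys

end Pool.Agent.U374.Mn
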