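import Pool.Agent.U374.Mn.Tor
import Pool.Agent.U374.Mn.Def
import Pool.Agent.U374.Tr.Exp
set_option autoImplicit false

/-!
Local inverses of triangular polynomial maps, and the charts at the vertices.
-/

namespace Pool.Agent.U374.Mn

open Filter Topology MvPolynomial

open Pool.Agent.TH577.UA (mmon contDiff_mmon mmon_zero_ne mmon_zero_eq)

open Pool.Agent.N65.TL (mmon_prod)

open Pool.Agent.U374.Tr (ex tm contDiff_tm)

section inv

variable {K : Type*} [Field K] {n : ℕ}

theorem contDiff_eval₂ (σ : K →+* ℂ) (p : MvPolynomial (Fin n) K) :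
    ContDiff ℂ 2 fun x : Fin n → ℂ => eval₂ σ x p := by
  induction p using MvPolynomial.induction_on with
  | C c => simpa using contDiff_const
  | add p q hp hq => simpa using hp.add hq
  | mul_X p k hp => simpa using hp.mul (contDiff_apply ℂ ℂ k)

theorem hasFDerivAt_eval₂ (σ : K →+* ℂ) (p : MvPolynomial (Fin n) K) (x : Fin n → ℂ) :
    HasFDerivAt (fun x : Fin n → ℂ => eval₂ σ x p)
      (∑ l, eval₂ σ x (pderiv l p) • (ContinuousLinearMap.proj l : (Fin n → ℂ) →L[ℂ] ℂ)) x := by
  classical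
  induction p using MvPolynomial.induction_on with
  | C c =>
    have e : (fun x : Fin n → ℂ => eval₂ σ x (C c : MvPolynomial (Fin n) K)) = fun _ => σ c := by
      funext x
      rw [eval₂_C]
    rw [e]
    refine (hasFDerivAt_const (σ c) x).congr_fderiv ?_
    ext v
    simp
  | add p q hp hq =>
    have e : (fun x : Fin n → ℂ => eval₂ σ x (p + q)) =
        (fun x => eval₂ σ x p) + fun x => eval₂ σ x q := by
      funext x
      rw [eval₂_add]
      rfl
    rw [e]
    refine (hp.add hq).congr_fderiv ?_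
    ext v
    simp [add_mul, Finset.sum_add_distrib]
  | mul_X p k hp =>
    have h1 := hp.mul (hasFDerivAt_apply (𝕜 := ℂ) k x)
    have e : (fun x : Fin n → ℂ => eval₂ σ x (p * X k)) = fun x => eval₂ σ x p * x k := by
      funext x
      rw [eval₂_mul, eval₂_X]
    rw [e]
    refine h1.congr_fderiv ?_
    ext v
    simp only [add_apply, smul_apply, ContinuousLinearMap.proj_apply, smul_eq_mul,
      sum_apply, pderiv_mul,
      eval₂_add, eval₂_mul, eval₂_X, pderiv_X, add_mul, Finset.sum_add_distrib, Finset.mul_sum]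
    rw [add_comm]
    congr 1
    · exact Finset.sum_congr rfl fun l _ => by ring
    · rw [Finset.sum_eq_single k]
      · rw [Pi.single_eq_same, eval₂_one, mul_one]
      · intro l _ hl
        rw [Pi.single_eq_of_ne hl.symm, eval₂_zero, mul_zero, zero_mul]
      · intro h
        exact absurd (Finset.mem_univ _) h

/-- Local inverses of triangular polynomial maps. -/
theorem exists_inverse (σ : K →+* ℂ) (p : Fin n → MvPolynomial (Fin n) K) (x0 : Fin n → ℂ)
    (h0 : ∀ j, eval₂ σ x0 (p j) = 0) (hv : ∀ j, ∀ l ∈ (p j).vars, l ≤ j)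
    (hd : ∀ j, eval₂ σ x0 (pderiv j (p j)) ≠ 0) :
    ∃ G : (Fin n → ℂ) → (Fin n → ℂ), ContDiffAt ℂ 2 G 0 ∧ G 0 = x0 ∧
      ∀ᶠ t in 𝓝 (0 : Fin n → ℂ), ∀ j, eval₂ σ (G t) (p j) = t j := by
  classical
  set f : (Fin n → ℂ) → (Fin n → ℂ) := fun x j => eval₂ σ x (p j) with hf
  have hfc : ContDiff ℂ 2 f := contDiff_pi.2 fun j => contDiff_eval₂ σ (p j)
  have hfx : f x0 = 0 := funext h0
  set f' : (Fin n → ℂ) →L[ℂ] (Fin n → ℂ) := ContinuousLinearMap.pi fun j =>
    ∑ l, eval₂ σ x0 (pderiv l (p j)) • (ContinuousLinearMap.proj l : (Fin n → ℂ) →L[ℂ] ℂ) with hf'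
  have hd' : HasFDerivAt f f' x0 := hasFDerivAt_pi.2 fun j => hasFDerivAt_eval₂ σ (p j) x0
  have hfv : ∀ v j, f' v j = ∑ l, eval₂ σ x0 (pderiv l (p j)) * v l := by
    intro v j
    simp [hf']
  have hinj : Function.Injective (f' : (Fin n → ℂ) →ₗ[ℂ] (Fin n → ℂ)) := by
    rw [injective_iff_map_eq_zero]
    intro v hv0
    have key : ∀ (k : ℕ) (j : Fin n), (j : ℕ) = k → v j = 0 := by
      intro k
      induction k using Nat.strong_induction_on with
      | _ k ih =>
        intro j hj
        have h1 : ∑ l, eval₂ σ x0 (pderiv l (p j)) * v l = 0 := by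
          rw [← hfv]
          exact congrFun hv0 j
        rw [Finset.sum_eq_single j] at h1
        · exact (mul_eq_zero.1 h1).resolve_left (hd j)
        · intro l _ hl
          rcases lt_or_gt_of_ne hl with h2 | h2
          · rw [ih l (by have h3 : (l : ℕ) < j := h2; omega) l rfl, mul_zero]
          · rw [pderiv_eq_zero_of_notMem_vars fun h3 => absurd (hv j l h3) (not_le.2 h2),
              eval₂_zero, zero_mul]
        · intro h
          exact absurd (Finset.mem_univ _) h
    funext j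
    exact key j j rfl
  set e : (Fin n → ℂ) ≃L[ℂ] (Fin n → ℂ) :=
    (LinearEquiv.ofInjectiveEndo (f' : (Fin n → ℂ) →ₗ[ℂ] (Fin n → ℂ))
      hinj).toContinuousLinearEquiv with he
  have hee : (e : (Fin n → ℂ) →L[ℂ] (Fin n → ℂ)) = f' := by
    ext v j
    rfl
  have hda : HasFDerivAt f (e : (Fin n → ℂ) →L[ℂ] (Fin n → ℂ)) x0 := by
    rw [hee]
    exact hd'
  have h2 : (2 : WithTop ℕ∞) ≠ 0 := by norm_num
  refine ⟨hfc.contDiffAt.localInverse hda h2, ?_, ?_, ?_⟩
  · have h3 := hfc.contDiffAt.to_localInverse hda h2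
    rwa [hfx] at h3
  · have h3 := hfc.contDiffAt.localInverse_apply_image hda h2
    rwa [hfx] at h3
  · have h3 := (hfc.contDiffAt.hasStrictFDerivAt' hda h2).eventually_right_inverse
    rw [hfx] at h3
    filter_upwards [h3] with t ht j
    exact congrFun ht j

end inv

section chart

variable {K : Type*} [Field K] {s d : ℕ} {A : Sys K s d}

theorem ex_zero (j l : ℕ) : ex 0 j l = if l = j then 1 else 0 := by
  unfold ex
  by_cases h : l = j
  · subst h
    rw [if_pos le_rfl, Nat.sub_self, pow_zero, if_pos rfl]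
  · rw [if_neg h]
    split_ifs with h1
    · exact zero_pow (by omega)
    · rfl

theorem tm_zero (M : ℕ) : tm (d := d) M 0 = 0 := by
  funext j
  exact mmon_zero_ne ⟨j, by rw [Pool.Agent.U374.Tr.ex_self]; exact one_ne_zero⟩

/-- The chart at the vertex of `T`. -/
theorem exists_lchart (hA : ∀ j i, ∀ l ∈ (A.P j i).vars, l ≤ j) {σ : K →+* ℂ} {T : A.Sel}
    (hV : A.HasVertex σ T) :
    ∃ Ch : LChart σ A.Phi0 (fun e : A.Ix => A.P e.1 e.2), (∀ (e : A.Ix) (l : Fin (d + 1)),
      Ch.μ e l = if e.2 = (T e.1).succ then (if l = e.1 then 1 else 0) else 0) ∧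
      0 < Ch.μ0 0 := by
  classical
  obtain ⟨x0, h0, hd, hn, hg⟩ := hV
  obtain ⟨G, hGc, hG0, hGe⟩ := exists_inverse σ (fun j => A.P j (T j).succ) x0 h0
    (fun j => hA j _) hd
  set X : (Fin d → ℂ) × ℂ → Fin (d + 1) → ℂ := fun y => G (tm 0 y) with hX
  have ht : ContDiffAt ℂ 2 (tm (d := d) 0) 0 := (contDiff_tm 0).contDiffAt
  have hXc : ContDiffAt ℂ 2 X 0 := by
    refine ContDiffAt.comp (0 : (Fin d → ℂ) × ℂ) (g := G) ?_ ht
    rw [tm_zero]
    exact hGc
  have hX0 : X 0 = x0 := by
    show G (tm 0 0) = x0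
    rw [tm_zero, hG0]
  have hXe : ∀ᶠ y in 𝓝 (0 : (Fin d → ℂ) × ℂ), ∀ j, eval₂ σ (X y) (A.P j (T j).succ) = tm 0 y j := by
    have h1 : Tendsto (tm (d := d) 0) (𝓝 0) (𝓝 0) := by
      have h2 := (contDiff_tm (d := d) 0).continuous.tendsto 0
      rwa [tm_zero] at h2
    exact h1.eventually hGe
  have hPc : ∀ p : MvPolynomial (Fin (d + 1)) K, ContDiffAt ℂ 2 (fun y => eval₂ σ (X y) p) 0 :=
    fun p => ((contDiff_eval₂ σ p).contDiffAt).comp (0 : (Fin d → ℂ) × ℂ) hXc
  set μ : A.Ix → Fin (d + 1) → ℕ := fun e l =>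
    if e.2 = (T e.1).succ then (if l = e.1 then 1 else 0) else 0 with hμ
  set h : A.Ix → (Fin d → ℂ) × ℂ → ℂ := fun e y =>
    if e.2 = (T e.1).succ then 1 else eval₂ σ (X y) (A.P e.1 e.2) with hh
  have hhc : ∀ e, ContDiffAt ℂ 2 (h e) 0 := by
    intro e
    simp only [hh]
    by_cases he : e.2 = (T e.1).succ
    · simp only [if_pos he]
      exact contDiffAt_const
    · simp only [if_neg he]
      exact hPc _
  have hhn : ∀ e, h e 0 ≠ 0 := by
    intro e
    simp only [hh]
    by_cases he : e.2 = (T e.1).succ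
    · rw [if_pos he]
      exact one_ne_zero
    · rw [if_neg he, hX0]
      exact hn _ _ he
  have hhe : ∀ᶠ y in 𝓝 (0 : (Fin d → ℂ) × ℂ), ∀ e : A.Ix,
      eval₂ σ (X y) (A.P e.1 e.2) = mmon (μ e) y * h e y := by
    filter_upwards [hXe] with y hy e
    by_cases he : e.2 = (T e.1).succ
    · simp only [hh, hμ, if_pos he, mul_one]
      rw [he, hy]
      unfold tm
      congr 1
      funext l
      rw [ex_zero]
      by_cases hl : l = e.1
      · rw [if_pos hl, if_pos (congrArg Fin.val hl)]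
      · rw [if_neg hl, if_neg fun h => hl (Fin.ext h)]
    · simp only [hh, hμ, if_neg he]
      rw [mmon_zero_eq (fun _ => rfl), one_mul]
  refine ⟨{ X := X
            X_smooth := hXc
            μ0 := fun l => ∑ e : A.Ix, (A.w e.1 e.2 + 1) * μ e l
            h0 := fun y => eval₂ σ (X y) A.g * ∏ e : A.Ix, h e y ^ (A.w e.1 e.2 + 1)
            h0_smooth := (hPc _).mul (contDiffAt_prod fun e _ => (hhc e).pow _)
            h0_ne := by
              refine mul_ne_zero ?_ (Finset.prod_ne_zero_iff.2 fun e _ => pow_ne_zero _ (hhn e))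
              rw [hX0]
              exact hg
            h0_eq := by
              filter_upwards [hhe] with y hy
              unfold Sys.Phi0
              rw [eval₂_mul, eval₂_prod]
              have h1 : ∏ e : A.Ix, eval₂ σ (X y) (A.P e.1 e.2 ^ (A.w e.1 e.2 + 1)) =
                  ∏ e : A.Ix, (mmon (μ e) y) ^ (A.w e.1 e.2 + 1) * h e y ^ (A.w e.1 e.2 + 1) :=
                Finset.prod_congr rfl fun e _ => by rw [eval₂_pow, hy e, mul_pow]
              rw [h1, Finset.prod_mul_distrib, mmon_prod]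
              ring
            μ := μ
            h := h
            h_smooth := hhc
            h_ne := hhn
            h_eq := fun e => hhe.mono fun y hy => hy e }, fun e l => rfl, ?_⟩
  show 0 < ∑ e : A.Ix, (A.w e.1 e.2 + 1) * μ e 0
  refine Finset.sum_pos' (fun _ _ => Nat.zero_le _) ⟨⟨0, (T 0).succ⟩, Finset.mem_univ _, ?_⟩
  simp [hμ]

end chart

end Pool.Agent.U374.Mn
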