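import Pool.Agent.U374.Mn.Def
import Pool.Agent.U374.Tr.AUnr
set_option autoImplicit false

/-!
The symbols of the fibrations over triangular systems of monic polynomials are unramified.
-/

namespace Pool.Agent.U374.Mn

open scoped WithZero

open Pool.Agent.TH826.MK

open Pool.Agent.N65.TL

open Pool.Agent.U374.Tr

section val

variable {L : Type*} [Field L] {K : Type*} [Field K] {m : ℕ}

/-- Polynomials whose variables have index at most `j` and whose degree in `x_j` is less than `n`, at
points whose coordinates `x_l`, `l < j`, are integral and `x_j` is not. -/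
theorem val_lt_pow {p : MvPolynomial (Fin m) K} (F : MvPolynomial (Fin m) K →+* L)
    (v : Valuation L ℤᵐ⁰) (hp : ∀ k, IsIntegral ℤ (p.coeff k)) {j : Fin m}
    (hv : ∀ l ∈ p.vars, l ≤ j) {n : ℕ} (hn : p.degreeOf j < n)
    (hj : 1 < v (F (MvPolynomial.X j))) (hl : ∀ l, l < j → v (F (MvPolynomial.X l)) ≤ 1) :
    v (F p) < v (F (MvPolynomial.X j)) ^ n := by
  classical
  have hc : ∀ x : K, IsIntegral ℤ x → v (F (MvPolynomial.C x)) ≤ 1 := fun x hx =>
    Pool.Agent.TH826.MK.val_le_one_of_integral v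
      (map_isIntegral_int (F.comp MvPolynomial.C) hx)
  have e : F p = ∑ k ∈ p.support, F (MvPolynomial.C (p.coeff k)) *
      ∏ j, F (MvPolynomial.X j) ^ k j := by
    have h1 : F p = MvPolynomial.eval₂ (F.comp MvPolynomial.C) (fun j => F (MvPolynomial.X j)) p := by
      have h2 : F = MvPolynomial.eval₂Hom (F.comp MvPolynomial.C)
          (fun j => F (MvPolynomial.X j)) := by
        refine MvPolynomial.ringHom_ext (fun x => ?_) fun j => ?_
        · simp only [MvPolynomial.coe_eval₂Hom, MvPolynomial.eval₂_C]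
          rfl
        · simp only [MvPolynomial.coe_eval₂Hom, MvPolynomial.eval₂_X]
      exact congrArg (fun F : MvPolynomial (Fin m) K →+* L => F p) h2
    rw [h1, MvPolynomial.eval₂_eq']
    rfl
  have hX0 : v (F (MvPolynomial.X j)) ≠ 0 := fun h => by
    rw [h] at hj
    exact absurd hj (not_lt.2 zero_le_one)
  rw [e]
  refine Valuation.map_sum_lt v (pow_ne_zero _ hX0) fun k hk => ?_
  have h1 : v (F (MvPolynomial.C (p.coeff k)) * ∏ j, F (MvPolynomial.X j) ^ k j) ≤
      v (F (MvPolynomial.X j)) ^ k j := by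
    rw [map_mul, map_prod, ← Finset.mul_prod_erase _ _ (Finset.mem_univ j), map_pow]
    have h2 : ∏ x ∈ Finset.univ.erase j, v (F (MvPolynomial.X x) ^ k x) ≤ 1 := by
      refine Finset.prod_le_one' fun l hlj => ?_
      rw [map_pow]
      by_cases h3 : l < j
      · exact pow_le_one' (hl l h3) _
      · by_cases h4 : l ∈ p.vars
        · exact absurd (lt_of_le_of_ne (hv l h4) (Finset.ne_of_mem_erase hlj)) h3
        · rw [MvPolynomial.mem_support_notMem_vars_zero hk h4, pow_zero]
    calc v (F (MvPolynomial.C (p.coeff k))) * (v (F (MvPolynomial.X j)) ^ k j *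
          ∏ x ∈ Finset.univ.erase j, v (F (MvPolynomial.X x) ^ k x))
        ≤ 1 * (v (F (MvPolynomial.X j)) ^ k j * 1) :=
          mul_le_mul' (hc _ (hp k)) (mul_le_mul' le_rfl h2)
      _ = _ := by rw [one_mul, mul_one]
  refine h1.trans_lt (pow_lt_pow_right₀ hj ?_)
  exact (MvPolynomial.monomial_le_degreeOf j hk).trans_lt hn

end val

namespace Sys

variable {K : Type*} [Field K] {s d : ℕ} {A : Sys K s d}

/-- One-units form a group. -/
theorem oneUnit_div {L : Type*} [Field L] (v : Valuation L ℤᵐ⁰) {a b : Lˣ}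
    (ha : v ((a : L) - 1) < 1) (hb : v ((b : L) - 1) < 1) : v (((a / b : Lˣ) : L) - 1) < 1 := by
  have hb1 : v (b : L) = 1 := val_one_of_sub_one hb
  have h0 : (b : L) ≠ 0 := b.ne_zero
  rw [Units.val_div_eq_div_val, div_sub_one h0, map_div₀, hb1, div_one]
  have e : (a : L) - b = (a - 1) - (b - 1) := by ring
  rw [e]
  exact (v.map_sub _ _).trans_lt (max_lt ha hb)

theorem oneUnit_pow {L : Type*} [Field L] (v : Valuation L ℤᵐ⁰) {a : Lˣ}
    (ha : v ((a : L) - 1) < 1) (k : ℕ) : v (((a ^ k : Lˣ) : L) - 1) < 1 := by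
  have ha1 : v (a : L) = 1 := val_one_of_sub_one ha
  have h := val_pow_sub (v := v) (x := (a : L)) (y := 1) ha1.le (by rw [map_one]) ha k
  rwa [one_pow, ← Units.val_pow_eq_pow_val] at h

theorem sym_mem_unitPart (hA : A.Admissible) {lam : K} (hlam : IsIntegral ℤ lam)
    (T : A.Sel) {L : Type*} [Field L] (f : A.Open lam →+* L)
    (v : Valuation L ℤᵐ⁰) :
    KQ.map (s + (d + 1) + 1) f (A.sym lam T) ∈ unitPart v (s + (d + 1) + 1) := by
  classical
  set F : MvPolynomial (Fin (d + 1)) K →+* L := f.comp (qx A.W (A.Phi lam) (A.Phi lam)) with hF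
  have hc : ∀ x : K, IsIntegral ℤ x → v (F (MvPolynomial.C x)) ≤ 1 := fun x hx =>
    Pool.Agent.TH826.MK.val_le_one_of_integral v (map_isIntegral_int (F.comp MvPolynomial.C) hx)
  -- the entries
  set z : Fin (s + 1) → Lˣ := fun i => Units.map (f : A.Open lam →* L) (A.z lam i) with hz
  set b : A.Ix → Lˣ := fun e => Units.map (f : A.Open lam →* L) (A.L lam e) with hb
  have hbv : ∀ e, (b e : L) = F (A.P e.1 e.2) := fun e => rfl
  set a : Fin (s + (d + 1) + 1) → Lˣ := fun l =>
    Sum.elim z (fun j => b ⟨j, (T j).succ⟩ ^ A.deg j 0 / b ⟨j, 0⟩ ^ A.deg j (T j).succ)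
      ((esum s d).symm l) with ha
  have hmap : KQ.map (s + (d + 1) + 1) f (A.sym lam T) = symb a := by
    unfold sym
    rw [KQ.map_symb]
    congr 1
    funext l
    rw [ha]
    obtain ⟨t, rfl⟩ := (esum s d).surjective l
    simp only [Equiv.symm_apply_apply]
    rcases t with i | k
    · rfl
    · simp only [Sum.elim_inr]
      unfold u
      rw [map_div, map_pow, map_pow]
  rw [hmap]
  have haz : ∀ i, a (esum s d (Sum.inl i)) = z i := by
    intro i
    simp only [ha]
    rw [Equiv.symm_apply_apply, Sum.elim_inl]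
  have hab : ∀ j, a (esum s d (Sum.inr j)) =
      b ⟨j, (T j).succ⟩ ^ A.deg j 0 / b ⟨j, 0⟩ ^ A.deg j (T j).succ := by
    intro j
    simp only [ha]
    rw [Equiv.symm_apply_apply, Sum.elim_inr]
  by_cases hB : ∃ k, 1 < v (F (MvPolynomial.X k))
  · -- a pole
    obtain ⟨j, hj, hmin⟩ := Finset.exists_min_image
      (Finset.univ.filter fun k => 1 < v (F (MvPolynomial.X k))) (fun k => (k : ℕ))
      (by
        obtain ⟨k1, hk1⟩ := hB
        exact ⟨k1, Finset.mem_filter.2 ⟨Finset.mem_univ _, hk1⟩⟩)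
    have hjv : 1 < v (F (MvPolynomial.X j)) := (Finset.mem_filter.1 hj).2
    have hlow : ∀ l, l < j → v (F (MvPolynomial.X l)) ≤ 1 := by
      intro l hl
      by_contra hcon
      have h1 := hmin l (Finset.mem_filter.2 ⟨Finset.mem_univ _, not_le.1 hcon⟩)
      have h2 : (l : ℕ) < j := hl
      omega
    have hX0 : F (MvPolynomial.X j) ≠ 0 := fun h => by
      rw [h, map_zero] at hjv
      exact absurd hjv (not_lt.2 zero_le_one)
    set x : Lˣ := Units.mk0 _ hX0 with hx
    have hone : ∀ i, v (((b ⟨j, i⟩ / x ^ A.deg j i : Lˣ) : L) - 1) < 1 := by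
      intro i
      have h0 : (((x ^ A.deg j i : Lˣ)) : L) ≠ 0 := (x ^ A.deg j i).ne_zero
      have h1 : v (F (A.P j i - MvPolynomial.X j ^ A.deg j i)) <
          v (F (MvPolynomial.X j)) ^ A.deg j i := by
        refine val_lt_pow F v (fun k => ?_) (fun l hl => ?_) (hA.monic j i) hjv hlow
        · rw [MvPolynomial.coeff_sub, MvPolynomial.coeff_X_pow]
          refine (hA.P_int j i k).sub ?_
          split_ifs
          · exact isIntegral_one
          · exact isIntegral_zero
        · rcases Finset.mem_union.1 (MvPolynomial.vars_sub_subset (p := A.P j i) (q := _) hl)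
            with h2 | h2
          · exact hA.P_vars j i l h2
          · have h3 := MvPolynomial.vars_pow _ _ h2
            rw [MvPolynomial.vars_X, Finset.mem_singleton] at h3
            exact h3.le
      rw [Units.val_div_eq_div_val, div_sub_one h0, map_div₀, hbv, Units.val_pow_eq_pow_val, hx,
        Units.val_mk0, ← map_pow F, ← map_sub, map_pow F, map_pow]
      rwa [div_lt_one₀ (pow_pos (zero_lt_one.trans hjv) _)]
    refine mem_unitPart_of_oneUnit' v (esum s d (Sum.inr j)) a ?_
    rw [hab]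
    have e : b ⟨j, (T j).succ⟩ ^ A.deg j 0 / b ⟨j, 0⟩ ^ A.deg j (T j).succ =
        (b ⟨j, (T j).succ⟩ / x ^ A.deg j (T j).succ) ^ A.deg j 0 /
          (b ⟨j, 0⟩ / x ^ A.deg j 0) ^ A.deg j (T j).succ := by
      rw [div_pow, div_pow, ← pow_mul, ← pow_mul, mul_comm (A.deg j 0)]
      rw [div_div_div_cancel_right]
    rw [e]
    exact oneUnit_div v (oneUnit_pow v (hone _) _) (oneUnit_pow v (hone _) _)
  · push Not at hB
    have hP : ∀ e : A.Ix, v (F (A.P e.1 e.2)) ≤ 1 := fun e =>
      val_le F v (hA.P_int e.1 e.2) fun l _ => hB l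
    have hgv : v (F A.g) ≤ 1 := val_le F v hA.g_int fun l _ => hB l
    have hFP : v (f (qx A.W (A.Phi lam) (A.Phi lam) (A.Phi lam))) =
        v (F (MvPolynomial.C lam)) * (v (F A.g) *
          ∏ e : A.Ix, v (F (A.P e.1 e.2)) ^ (A.w e.1 e.2 + 1)) := by
      have h1 : f (qx A.W (A.Phi lam) (A.Phi lam) (A.Phi lam)) =
        F (MvPolynomial.C lam * (A.g * ∏ e : A.Ix, A.P e.1 e.2 ^ (A.w e.1 e.2 + 1))) := rfl
      rw [h1]
      simp only [map_mul, map_prod, map_pow]
    have hprodle : ∏ e : A.Ix, v (F (A.P e.1 e.2)) ^ (A.w e.1 e.2 + 1) ≤ 1 :=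
      Finset.prod_le_one' fun e _ => pow_le_one' (hP e) _
    have hP1 : v (f (qx A.W (A.Phi lam) (A.Phi lam) (A.Phi lam))) ≤ 1 := by
      rw [hFP]
      exact mul_le_one' (hc _ hlam) (mul_le_one' hgv hprodle)
    rcases tame_or_unit hA.interior hA.tame f v hP1 with h | ⟨hz1, hP2⟩
    · exact h _ a (fun i => esum s d (Sum.inl i)) (fun i j h =>
          Sum.inl_injective ((esum s d).injective h)) haz
    · have hone := hFP.symm.trans hP2
      have hunit : ∀ e : A.Ix, v (F (A.P e.1 e.2)) = 1 := by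
        intro e
        refine le_antisymm (hP e) ?_
        rw [← hone, ← Finset.mul_prod_erase _ _ (Finset.mem_univ e)]
        have h1 : ∏ x ∈ Finset.univ.erase e, v (F (A.P x.1 x.2)) ^ (A.w x.1 x.2 + 1) ≤ 1 :=
          Finset.prod_le_one' fun j _ => pow_le_one' (hP j) _
        have h2 : v (F (A.P e.1 e.2)) ^ (A.w e.1 e.2 + 1) ≤ v (F (A.P e.1 e.2)) := by
          rw [pow_succ]
          exact mul_le_of_le_one_left' (pow_le_one' (hP e) _)
        calc v (F (MvPolynomial.C lam)) * (v (F A.g) * (v (F (A.P e.1 e.2)) ^ (A.w e.1 e.2 + 1) *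
              ∏ x ∈ Finset.univ.erase e, v (F (A.P x.1 x.2)) ^ (A.w x.1 x.2 + 1)))
            ≤ 1 * (1 * (v (F (A.P e.1 e.2)) * 1)) :=
              mul_le_mul' (hc _ hlam) (mul_le_mul' hgv (mul_le_mul' h2 h1))
          _ = v (F (A.P e.1 e.2)) := by rw [one_mul, one_mul, mul_one]
      refine Submodule.subset_span ⟨a, fun l => ?_, rfl⟩
      obtain ⟨t, rfl⟩ := (esum s d).surjective l
      rcases t with i | k
      · rw [haz]
        exact hz1 i
      · rw [hab, Units.val_div_eq_div_val, map_div₀, Units.val_pow_eq_pow_val,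
          Units.val_pow_eq_pow_val, map_pow, map_pow, hbv, hbv, hunit, hunit, one_pow, one_pow,
          div_one]

end Sys

end Pool.Agent.U374.Mn
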