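import Pool.Agent.U374.Mn.Inv
import Pool.Agent.U374.Mn.Unr
set_option autoImplicit false

/-!
The regulators of the symbols on the fibrations over triangular systems of monic polynomials.
-/

namespace Pool.Agent.U374.Mn

open Pool.Agent.TH826.MK

open Pool.Agent.TH826.SX (det_ne_zero_near)

open Pool.Agent.N65.TL

open Pool.Agent.U374.Tr

namespace Sys

variable {K : Type*} [Field K] {s d : ℕ} {A : Sys K s d}

/-- The exponents of the entries of the symbol of `T`. -/
def nS (T : A.Sel) (l : Fin (d + 1)) (e : A.Ix) : ℤ :=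
  (if e = ⟨l, (T l).succ⟩ then (A.deg l 0 : ℤ) else 0) -
    if e = ⟨l, 0⟩ then (A.deg l (T l).succ : ℤ) else 0

theorem leadG_nS {T : A.Sel} {μ : A.Ix → Fin (d + 1) → ℕ}
    (hμ : ∀ (e : A.Ix) (l : Fin (d + 1)),
      μ e l = if e.2 = (T e.1).succ then (if l = e.1 then 1 else 0) else 0) (T' : A.Sel) :
    leadG μ (nS T') = if T = T' then ∏ l, (A.deg l 0 : ℝ) else 0 := by
  classical
  have h0 : ∀ (l j : Fin (d + 1)), ∑ e, (nS T' l e : ℝ) * μ e j =
      if l = j then (if T l = T' l then (A.deg l 0 : ℝ) else 0) else 0 := by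
    intro l j
    unfold nS
    push_cast
    simp only [sub_mul, ite_mul, zero_mul, Finset.sum_sub_distrib]
    rw [Finset.sum_ite_eq' Finset.univ, if_pos (Finset.mem_univ _),
      Finset.sum_ite_eq' Finset.univ, if_pos (Finset.mem_univ _), hμ, hμ]
    simp only [(Fin.succ_ne_zero _).symm, if_false, Nat.cast_zero, mul_zero, sub_zero]
    by_cases h1 : l = j
    · subst h1
      rw [if_pos rfl, if_pos rfl]
      by_cases h2 : T l = T' l
      · rw [if_pos h2, if_pos (by rw [h2]), Nat.cast_one, mul_one]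
      · rw [if_neg h2, if_neg (fun h3 => h2 (Fin.succ_injective _ h3).symm), Nat.cast_zero,
          mul_zero]
    · rw [if_neg h1, if_neg (Ne.symm h1)]
      simp
  unfold leadG
  simp only [h0]
  have h2 : (Matrix.of fun l j : Fin (d + 1) =>
      if l = j then (if T l = T' l then (A.deg l 0 : ℝ) else 0) else 0) =
      Matrix.diagonal fun l => if T l = T' l then (A.deg l 0 : ℝ) else 0 := by
    ext l j
    rw [Matrix.of_apply, Matrix.diagonal_apply]
  rw [h2, Matrix.det_diagonal]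
  by_cases h : T = T'
  · rw [if_pos h]
    exact Finset.prod_congr rfl fun j _ => if_pos (congrFun h j)
  · rw [if_neg h]
    obtain ⟨j, hj⟩ := Function.ne_iff.1 h
    exact Finset.prod_eq_zero (Finset.mem_univ j) (if_neg hj)

theorem prod_two {G : Type*} [CommGroup G] {ι : Type*} [Fintype ι] [DecidableEq ι] (f : ι → G)
    (a b : ι) (m n : ℕ) :
    ∏ e, f e ^ ((if e = a then (m : ℤ) else 0) - if e = b then (n : ℤ) else 0) =
      f a ^ m / f b ^ n := by
  have h1 : ∀ e, f e ^ ((if e = a then (m : ℤ) else 0) - if e = b then (n : ℤ) else 0) =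
      (if e = a then f e ^ m else 1) / (if e = b then f e ^ n else 1) := by
    intro e
    rw [zpow_sub, ← div_eq_mul_inv]
    congr 1
    · split_ifs
      · exact zpow_natCast _ _
      · exact zpow_zero _
    · split_ifs
      · exact zpow_natCast _ _
      · exact zpow_zero _
  rw [Finset.prod_congr rfl fun e _ => h1 e, Finset.prod_div_distrib,
    Finset.prod_ite_eq' Finset.univ, if_pos (Finset.mem_univ _),
    Finset.prod_ite_eq' Finset.univ, if_pos (Finset.mem_univ _)]

theorem qent_eq (lam : K) (T : A.Sel) :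
    symb (qent A.W (A.Phi lam) (A.P_dvd lam) (nS T)) = A.sym lam T := by
  classical
  unfold sym
  refine congrArg symb (funext fun l => ?_)
  unfold qent
  obtain ⟨t, rfl⟩ := (esum s d).surjective l
  rw [Equiv.symm_apply_apply]
  rcases t with i | j
  · rfl
  · rw [Sum.elim_inr, Sum.elim_inr]
    have h1 := prod_two (G := (QOpen A.W (A.Phi lam) (A.Phi lam))ˣ)
      (fun e : A.Ix => qdiv A.W (A.Phi lam) (A.P_dvd lam e)) ⟨j, (T j).succ⟩ ⟨j, 0⟩
      (A.deg j 0) (A.deg j (T j).succ)
    have h2 : qU A.W (A.Phi lam) (A.P_dvd lam) (nS T j) =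
        ∏ e : A.Ix, qdiv A.W (A.Phi lam) (A.P_dvd lam e) ^
          ((if e = ⟨j, (T j).succ⟩ then (A.deg j 0 : ℤ) else 0) -
            if e = ⟨j, 0⟩ then (A.deg j (T j).succ : ℤ) else 0) := by
      unfold qU nS
      refine Finset.prod_congr rfl fun e _ => ?_
      congr 1
    exact h2.trans h1

theorem exists_indep (σ : K →+* ℂ) (hA : A.Admissible) :
    ∃ C : ℝ, ∀ lam : K, C ≤ ‖σ lam‖ →
      ∃ Γ : {T : A.Sel // A.HasVertex σ T} → Torus (A.Open lam) (s + (d + 1)),
        (∀ T θ (x : K), (Γ T).e θ (A.cst lam x) = σ x) ∧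
        LinearIndependent ℝ fun (T' : {T : A.Sel // A.HasVertex σ T})
          (T : {T : A.Sel // A.HasVertex σ T}) => (Γ T).reg (A.sym lam T'.1) := by
  classical
  set ι := {T : A.Sel // A.HasVertex σ T} with hι
  rcases isEmpty_or_nonempty ι with hemp | hne
  · exact ⟨1, fun lam _ => ⟨fun T => (hemp.false T).elim, fun T => (hemp.false T).elim,
      linearIndependent_empty_type⟩⟩
  obtain ⟨al, v, hv, hpos, hmax⟩ := exists_vertex hA.interior
  obtain ⟨i0, hi0⟩ : ∃ i0, v i0 ≠ 0 := by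
    by_contra hcon
    push Not at hcon
    have h1 : dot al v = 0 := Finset.sum_eq_zero fun i _ => by rw [hcon i, mul_zero]
    omega
  set D0 : ℝ := (2 * Real.pi) ^ (s + (d + 1)) * ((zmat al v i0).det *
    (((dot al v : ℤ) : ℝ) ^ (d + 1) * ∏ l, (A.deg l 0 : ℝ))) with hD0
  have hdeg : ∏ l, (A.deg l 0 : ℝ) ≠ 0 := Finset.prod_ne_zero_iff.2 fun l _ => by
    have := hA.deg_pos l 0
    positivity
  have hD00 : D0 ≠ 0 := by
    refine mul_ne_zero (pow_ne_zero _ (by have := Real.pi_pos; positivity))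
      (mul_ne_zero (det_zmat hpos hi0) (mul_ne_zero (pow_ne_zero _ ?_) hdeg))
    exact_mod_cast hpos.ne'
  set M0 : Matrix ι ι ℝ := D0 • 1 with hM0
  have hM : M0.det ≠ 0 := by
    rw [hM0, Matrix.det_smul, Matrix.det_one, mul_one]
    exact pow_ne_zero _ hD00
  obtain ⟨δ, hδ, hdet⟩ := det_ne_zero_near M0 hM
  choose Ch hCh hCh0 using fun T : ι => exists_lchart hA.P_vars T.2
  choose Λ hΛ1 hΛ using fun T : ι =>
    exists_torusL (W := A.W) (P := fun e : A.Ix => A.P e.1 e.2) σ hv hpos hmax i0 (Ch T)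
      (fun T' : ι => nS T'.1) (ε := δ / 2) (by linarith)
  set C : ℝ := ∑ T, |Λ T| + 2 with hC
  have hsum : 0 ≤ ∑ T, |Λ T| := Finset.sum_nonneg fun J _ => abs_nonneg _
  have hΛC : ∀ T, Λ T ≤ C := by
    intro T
    have h1 := Finset.single_le_sum (f := fun T => |Λ T|) (fun T _ => abs_nonneg _)
      (Finset.mem_univ T)
    have h2 := le_abs_self (Λ T)
    have h3 : |Λ T| ≤ ∑ T, |Λ T| := h1
    linarith
  refine ⟨C, fun lam hlam => ?_⟩
  have hl0 : σ lam ≠ 0 := by
    intro h0
    rw [h0, norm_zero] at hlam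
    linarith
  choose Γ hΓ1 hΓ2 using fun T => hΛ T lam (A.Phi lam) (A.P_dvd lam)
    ((hΛC T).trans hlam) (fun x h1 _ => by
      unfold Phi
      rw [MvPolynomial.eval₂_mul, MvPolynomial.eval₂_C]
      exact mul_ne_zero hl0 h1)
  refine ⟨Γ, hΓ1, ?_⟩
  have hs : Real.log ‖σ lam‖ ≠ 0 := by
    have : 0 < Real.log ‖σ lam‖ := Real.log_pos (by linarith)
    linarith
  set t : ℝ := Real.log ‖σ lam‖ with htdef
  have h1 : (Matrix.of fun T T' : ι => (Γ T).reg (A.sym lam T'.1) / t).det ≠ 0 := by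
    refine hdet _ fun T T' => ?_
    have h3 := hΓ2 T T'
    rw [det_Rg, leadG_nS (hCh T)] at h3
    have h3' : |(Γ T).reg (A.sym lam T'.1) / t - (2 * Real.pi) ^ (s + (d + 1)) *
        ((zmat al v i0).det * (((dot al v : ℤ) : ℝ) ^ (d + 1) *
          if T.1 = T'.1 then ∏ l, (A.deg l 0 : ℝ) else 0))| ≤ δ / 2 := by
      rw [← qent_eq]
      exact h3
    have h4 : (2 * Real.pi) ^ (s + (d + 1)) * ((zmat al v i0).det *
        (((dot al v : ℤ) : ℝ) ^ (d + 1) * if T.1 = T'.1 then ∏ l, (A.deg l 0 : ℝ) else 0)) =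
          M0 T T' := by
      rw [hM0, Matrix.smul_apply, Matrix.one_apply, hD0, smul_eq_mul]
      by_cases h : T = T'
      · rw [if_pos h, if_pos (congrArg Subtype.val h)]
        ring
      · rw [if_neg h, if_neg fun h' => h (Subtype.ext h')]
        ring
    rw [h4] at h3'
    rw [Matrix.of_apply]
    exact lt_of_le_of_lt h3' (show δ / 2 < δ by linarith)
  have h2 : (Matrix.of fun T T' : ι => (Γ T).reg (A.sym lam T'.1)) =
      t • (Matrix.of fun T T' : ι => (Γ T).reg (A.sym lam T'.1) / t) := by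
    ext T T'
    rw [Matrix.smul_apply, Matrix.of_apply, Matrix.of_apply, smul_eq_mul]
    field_simp
  have h5 : (Matrix.of fun T T' : ι => (Γ T).reg (A.sym lam T'.1)).det ≠ 0 := by
    rw [h2, Matrix.det_smul]
    exact mul_ne_zero (pow_ne_zero _ hs) h1
  exact Matrix.linearIndependent_cols_iff_isUnit.2
    ((Matrix.isUnit_iff_isUnit_det _).2 (isUnit_iff_ne_zero.2 h5))

theorem unram.{u, v} {K : Type u} [Field K] {s d : ℕ} {A : Sys K s d} (hA : A.Admissible) {lam : K}
    (hlam : IsIntegral ℤ lam) (T : A.Sel) (L : Type v) [Field L] (f : A.Open lam →+* L) :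
    KQ.map _ f (A.sym lam T) ∈ Unramified L _ := by
  unfold Unramified
  simp only [Submodule.mem_iInf]
  intro v _
  exact sym_mem_unitPart hA hlam T f v

end Sys

end Pool.Agent.U374.Mn
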