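import Pool.Agent.U374.Mn.Def
import Pool.Agent.U374.Tw.Ring
set_option autoImplicit false

/-!
Hypersurfaces `λ g ∏_(j,i) P_(j,i) ^ (w_(j,i) + 1) = 1`, where `P_(j,i)` is a monic polynomial in
`x_j` whose coefficients are polynomials in `x_0, ..., x_(j-1)`: definitions.
-/

namespace Pool.Agent.U374.Mn

open Pool.Agent.TH826.MK (KQ symb Unramified Torus)

open Pool.Agent.U374.Tw (HOpen instCommRingHOpen hcst hdiv)

/-- The data of a family `λ g ∏_(j,i) P_(j,i) ^ (w_(j,i) + 1) = 1`, `0 ≤ j ≤ d`, `0 ≤ i ≤ r_j`. -/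
structure HSys (K : Type*) [Field K] (d : ℕ) where
  /-- the polynomial `g` in `x_0, ..., x_d` -/
  g : MvPolynomial (Fin (d + 1)) K
  /-- the numbers `r_j` -/
  r : Fin (d + 1) → ℕ
  /-- the polynomials `P_(j,i)` -/
  P : (j : Fin (d + 1)) → Fin (r j + 1) → MvPolynomial (Fin (d + 1)) K
  /-- the degrees of the polynomials `P_(j,i)` in `x_j` -/
  deg : (j : Fin (d + 1)) → Fin (r j + 1) → ℕ
  /-- the exponents minus one -/
  w : (j : Fin (d + 1)) → Fin (r j + 1) → ℕ

namespace HSys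

variable {K : Type*} [Field K] {d : ℕ} (A : HSys K d)

/-- The conditions on the family. -/
structure Admissible (A : HSys K d) : Prop where
  /-- `g` has integral coefficients -/
  g_int : ∀ k, IsIntegral ℤ (A.g.coeff k)
  /-- the `P_(j,i)` have integral coefficients -/
  P_int : ∀ j i k, IsIntegral ℤ ((A.P j i).coeff k)
  /-- `P_(j,i)` is a polynomial in `x_0, ..., x_j` -/
  P_vars : ∀ j i, ∀ l ∈ (A.P j i).vars, l ≤ j
  /-- the degrees in `x_j` are positive -/
  deg_pos : ∀ j i, 0 < A.deg j i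
  /-- `P_(j,i)` is monic in `x_j` -/
  monic : ∀ j i, (A.P j i - MvPolynomial.X j ^ A.deg j i).degreeOf j < A.deg j i

/-- The selections `T` of one index `1 ≤ T_j ≤ r_j` for every `j` (as numbers `T_j - 1 < r_j`). -/
abbrev Sel : Type := (j : Fin (d + 1)) → Fin (A.r j)

/-- There is a complex point `x` at which all `P_(j,T_j)` vanish, but not their derivatives
`∂P_(j,T_j)/∂x_j`, and the other polynomials `P_(j,i)` and `g` do not vanish. -/
def HasVertex (σ : K →+* ℂ) (T : A.Sel) : Prop :=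
  ∃ x : Fin (d + 1) → ℂ,
    (∀ j, MvPolynomial.eval₂ σ x (A.P j (T j).succ) = 0) ∧
    (∀ j, MvPolynomial.eval₂ σ x (MvPolynomial.pderiv j (A.P j (T j).succ)) ≠ 0) ∧
    (∀ j i, i ≠ (T j).succ → MvPolynomial.eval₂ σ x (A.P j i) ≠ 0) ∧
    MvPolynomial.eval₂ σ x A.g ≠ 0

/-- The pairs `(j, i)`. -/
abbrev Ix : Type := (j : Fin (d + 1)) × Fin (A.r j + 1)

/-- The polynomial `Φ = λ g ∏ P_(j,i) ^ (w_(j,i) + 1)`. -/
noncomputable def Phi (lam : K) : MvPolynomial (Fin (d + 1)) K :=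
  MvPolynomial.C lam * (A.g * ∏ e : A.Ix, A.P e.1 e.2 ^ (A.w e.1 e.2 + 1))

/-- The coordinate ring of the hypersurface `Φ(x) = 1` (all of which is contained in the open set
`Φ ≠ 0`). -/
def Ring (lam : K) : Type _ := HOpen (A.Phi lam) (A.Phi lam)

noncomputable instance (lam : K) : CommRing (A.Ring lam) :=
  instCommRingHOpen (A.Phi lam) (A.Phi lam)

/-- The constants as functions on the hypersurface. -/
noncomputable def cst (lam : K) : K →+* A.Ring lam := hcst (A.Phi lam) (A.Phi lam)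

theorem P_dvd (lam : K) (e : A.Ix) : A.P e.1 e.2 ∣ A.Phi lam :=
  Dvd.dvd.mul_left (Dvd.dvd.mul_left ((dvd_pow_self _ (Nat.succ_ne_zero _)).trans
    (Finset.dvd_prod_of_mem (fun e : A.Ix => A.P e.1 e.2 ^ (A.w e.1 e.2 + 1))
      (Finset.mem_univ e))) _) _

/-- The units `P_(j,i)`. -/
noncomputable def L (lam : K) (e : A.Ix) : (A.Ring lam)ˣ := hdiv (A.Phi lam) (A.P_dvd lam e)

/-- The units `P_(j,i) ^ deg_j(P_(j,0)) / P_(j,0) ^ deg_j(P_(j,i))`. -/
noncomputable def u (lam : K) (j : Fin (d + 1)) (i : Fin (A.r j + 1)) : (A.Ring lam)ˣ :=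
  A.L lam ⟨j, i⟩ ^ A.deg j 0 / A.L lam ⟨j, 0⟩ ^ A.deg j i

/-- The symbol `{u_(0,T_0), ..., u_(d,T_d)}` in the Milnor K-theory of the coordinate ring, where
`u_(j,i) = P_(j,i) ^ deg_j(P_(j,0)) / P_(j,0) ^ deg_j(P_(j,i))`. -/
noncomputable def sym (lam : K) (T : A.Sel) : KQ (A.Ring lam) (d + 1) :=
  symb fun j => A.u lam j (T j).succ

/-- the family of fibrations with the same polynomials -/
noncomputable def toSys : Sys K 0 d where
  W := 0
  g := A.g
  r := A.r
  P := A.P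
  deg := A.deg
  w := A.w

end HSys

end Pool.Agent.U374.Mn
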