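import Pool.Agent.U374.Mn.TLoc
import Pool.Agent.U374.Mn.Tor
import Pool.Agent.U374.Tw.Tor
set_option autoImplicit false

/-!
The regulators of symbols on the hypersurfaces `λ Φ_0(x) = 1` for large `λ`, on tori near a point
with a local chart in which `Φ_0` and the functions `P_e` are monomials up to functions without zeros.
-/

namespace Pool.Agent.U374.Mn

open Pool.Agent.TH826.MK

open Pool.Agent.TH826.SX (pairing_close)

open Pool.Agent.TH577.UA (mmon mrow yrow det_yrow)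

open Pool.Agent.N65.TL (good_zpow lw_zpow)

open Pool.Agent.U374.Tr (leadG)

open Pool.Agent.U374.Tw

section main

variable {K : Type*} [Field K] {d : ℕ} {E : Type*} [Fintype E]
  {Φ0 : MvPolynomial (Fin (d + 1)) K} {P : E → MvPolynomial (Fin (d + 1)) K}

theorem exists_torusHL (σ : K →+* ℂ) (Ch : LChart σ Φ0 P) (hq : 0 < Ch.μ0 0) {ι : Type*}
    [Fintype ι] [Nonempty ι] (n : ι → Fin (d + 1) → E → ℤ) :
    ∃ D : ℝ, D ≠ 0 ∧ ∀ ε : ℝ, 0 < ε →
    ∃ Λ0 : ℝ, 1 < Λ0 ∧ ∀ (lam : K) (Ψ : MvPolynomial (Fin (d + 1)) K) (hP : ∀ e, P e ∣ Ψ),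
      Λ0 ≤ ‖σ lam‖ → (∀ x : Fin (d + 1) → ℂ, MvPolynomial.eval₂ σ x Φ0 ≠ 0 →
        (∀ e, MvPolynomial.eval₂ σ x (P e) ≠ 0) → MvPolynomial.eval₂ σ x Ψ ≠ 0) →
      ∃ Γ : Torus (HOpen (MvPolynomial.C lam * Φ0) Ψ) d,
        (∀ θ x, Γ.e θ (hcst (MvPolynomial.C lam * Φ0) Ψ x) = σ x) ∧
        ∀ t : ι, |Γ.reg (symb (hent (MvPolynomial.C lam * Φ0) hP (n t))) /
            (-Real.log ‖σ lam‖) - leadG Ch.μ (n t) * D| ≤ ε := by
  classical
  set q : ℕ := Ch.μ0 0 with hqdef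
  set N : Fin d → ℕ := fun k => Ch.μ0 k.succ with hN
  refine ⟨(2 * Real.pi) ^ d * (Matrix.of (yrow q N)).det, mul_ne_zero
    (pow_ne_zero _ (by have := Real.pi_pos; positivity)) (det_yrow hq N), fun ε hε => ?_⟩
  choose δ hδ hclose using fun t : ι =>
    pairing_close (Matrix.of fun l j => ∑ e, (n t l e : ℝ) * mrow q N (Ch.μ e) j) hε
  obtain ⟨T0, -, hT0⟩ := Finset.exists_min_image (Finset.univ : Finset ι) δ
    Finset.univ_nonempty
  set Nn : ℝ := ∑ t : ι, ∑ l, ∑ e, |(n t l e : ℝ)| with hNn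
  have hNn0 : 0 ≤ Nn := Finset.sum_nonneg fun t _ => Finset.sum_nonneg fun l _ =>
    Finset.sum_nonneg fun e _ => abs_nonneg _
  have hNnle : ∀ t l, ∑ e, |(n t l e : ℝ)| ≤ Nn := fun t l =>
    (Finset.single_le_sum (f := fun l => ∑ e, |(n t l e : ℝ)|)
      (fun l _ => Finset.sum_nonneg fun e _ => abs_nonneg _) (Finset.mem_univ l)).trans
    (Finset.single_le_sum (f := fun t => ∑ l, ∑ e, |(n t l e : ℝ)|)
      (fun t _ => Finset.sum_nonneg fun l _ => Finset.sum_nonneg fun e _ => abs_nonneg _)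
      (Finset.mem_univ t))
  set δ0 : ℝ := δ T0 / (2 * (1 + Nn)) with hδ0
  have hδ0pos : 0 < δ0 := div_pos (hδ T0) (by linarith)
  have hδle : ∀ t, Nn * δ0 < δ t := by
    intro t
    have h1 := hT0 t (Finset.mem_univ t)
    have h2 : δ T0 = 2 * ((1 + Nn) * δ0) := by
      rw [hδ0]
      field_simp
    nlinarith
  obtain ⟨η0, hη0, hX⟩ := exists_pointsL (q := q) (N := N) Ch.h0_eq Ch.h0_smooth Ch.h0_ne
    Ch.h_eq Ch.h_smooth (Ch.X_smooth.eventually (by norm_num)) Ch.h_ne rfl hq (fun k => rfl)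
    hδ0pos
  have hinvpos : 0 < 1 / η0 := by positivity
  refine ⟨1 / η0 + 2, by linarith, fun lam Ψ hP hlam hΨ => ?_⟩
  have hln : 0 < ‖σ lam‖ := by linarith
  have hl0 : σ lam ≠ 0 := norm_pos_iff.1 hln
  have hη : ‖(σ lam)⁻¹‖ < η0 := by
    rw [norm_inv, inv_lt_comm₀ hln hη0, ← one_div]
    linarith
  obtain ⟨hlog, U, hUc, hUp, hUe, hUX, hUg, hUest⟩ := hX _ (inv_ne_zero hl0) hη
  have hlogeq : Real.log ‖(σ lam)⁻¹‖ = -Real.log ‖σ lam‖ := by rw [norm_inv, Real.log_inv]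
  rw [hlogeq] at hlog hUest
  set s : ℝ := -Real.log ‖σ lam‖ with hs
  have hs0 : s ≠ 0 := hlog.ne
  set X : (Fin d → ℝ) → (Fin (d + 1) → ℂ) := fun θ => Ch.X (U θ) with hXdef
  have hXc : ContDiff ℝ 2 X := by
    rw [contDiff_iff_contDiffAt]
    intro θ
    exact ((hUX θ).restrict_scalars ℝ).comp θ hUc.contDiffAt
  have hXp : ∀ θ i, X (θ + Pi.single i 1) = X θ := fun θ i => by
    simp only [hXdef, hUp]
  have hPhi : ∀ θ, MvPolynomial.eval₂ σ (X θ) Φ0 = (σ lam)⁻¹ := fun θ => hUe θ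
  have hPt : ∀ θ, HPt σ (MvPolynomial.C lam * Φ0) Ψ (X θ) := fun θ =>
    { eq := by
        rw [MvPolynomial.eval₂_mul, MvPolynomial.eval₂_C, hPhi, mul_inv_cancel₀ hl0]
      ne := hΨ _ (by rw [hPhi]; exact inv_ne_zero hl0) fun e => (hUg e).ne_zero θ }
  set PX : E → (Fin d → ℝ) → ℂ := fun e θ => MvPolynomial.eval₂ σ (X θ) (P e) with hPX
  have hLg : ∀ e, Good (PX e) := fun e => hUg e
  have hest : ∀ e θ, |Real.log ‖PX e θ‖ / s - mrow q N (Ch.μ e) 0| ≤ δ0 ∧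
      ∀ l, ‖lw (PX e) l θ - 2 * Real.pi * Complex.I * mrow q N (Ch.μ e) l.succ‖ ≤ δ0 :=
    fun e θ => hUest e θ
  set Γ := mkH hXc hPt hXp with hΓ
  refine ⟨Γ, fun θ x => (hPt θ).ev_hcst x, fun t => ?_⟩
  have hfin : leadG Ch.μ (n t) * ((2 * Real.pi) ^ d * (Matrix.of (yrow q N)).det) =
      (2 * Real.pi) ^ d *
        (Matrix.of fun l j => ∑ e, (n t l e : ℝ) * mrow q N (Ch.μ e) j).det := by
    rw [det_mrow]
    ring
  rw [Torus.reg_symb, hfin]
  have hufn : ∀ l : Fin (d + 1), Γ.fn (hent (MvPolynomial.C lam * Φ0) hP (n t) l :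
      HOpen (MvPolynomial.C lam * Φ0) Ψ) = fun θ => ∏ e, PX e θ ^ n t l e := by
    intro l
    funext θ
    have h5 : Γ.fn (hent (MvPolynomial.C lam * Φ0) hP (n t) l :
        HOpen (MvPolynomial.C lam * Φ0) Ψ) θ =
        (Units.map ((hPt θ).ev : HOpen (MvPolynomial.C lam * Φ0) Ψ →* ℂ)
          (hent (MvPolynomial.C lam * Φ0) hP (n t) l) : ℂ) := rfl
    rw [h5]
    unfold hent
    rw [map_prod, Units.coe_prod]
    refine Finset.prod_congr rfl fun e _ => ?_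
    rw [map_zpow, Units.val_zpow_eq_zpow_val, Units.coe_map]
    congr 1
    exact (hPt θ).ev_hx (P e)
  have hgoodE : ∀ l, Good (Γ.fn (hent (MvPolynomial.C lam * Φ0) hP (n t) l :
      HOpen (MvPolynomial.C lam * Φ0) Ψ)) := fun l => Γ.good _
  refine hclose t _ _ hs0 hgoodE (fun l θ => ?_) (fun l j θ => ?_)
  · rw [congrFun (hufn l) θ, Matrix.of_apply]
    have h4 : Real.log ‖∏ e, PX e θ ^ n t l e‖ = ∑ e, (n t l e : ℝ) *
        Real.log ‖PX e θ‖ := by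
      rw [norm_prod, Real.log_prod fun e _ => norm_ne_zero_iff.2
        (zpow_ne_zero _ ((hLg e).ne_zero θ))]
      refine Finset.sum_congr rfl fun e _ => ?_
      rw [norm_zpow, Real.log_zpow]
    rw [h4, Finset.sum_div, ← Finset.sum_sub_distrib]
    refine lt_of_le_of_lt ((Finset.abs_sum_le_sum_abs _ _).trans ?_) (hδle t)
    calc ∑ e, |(n t l e : ℝ) * Real.log ‖PX e θ‖ / s - (n t l e : ℝ) * mrow q N (Ch.μ e) 0|
        ≤ ∑ e, |(n t l e : ℝ)| * δ0 := Finset.sum_le_sum fun e _ => by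
          rw [mul_div_assoc, ← mul_sub, abs_mul]
          exact mul_le_mul_of_nonneg_left (hest e θ).1 (abs_nonneg _)
      _ = (∑ e, |(n t l e : ℝ)|) * δ0 := by rw [Finset.sum_mul]
      _ ≤ Nn * δ0 := mul_le_mul_of_nonneg_right (hNnle t l) hδ0pos.le
  · rw [hufn l, Matrix.of_apply]
    have h4 : lw (fun θ => ∏ e, PX e θ ^ n t l e) j θ =
        ∑ e, (n t l e : ℂ) * lw (PX e) j θ := by
      have h5 := lw_prod (d := d) (Finset.univ : Finset E)
        (F := fun e θ => PX e θ ^ n t l e) (fun e => good_zpow (hLg e) _) j θ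
      rw [h5]
      exact Finset.sum_congr rfl fun e _ => lw_zpow (hLg e) _ j θ
    have e1 : (((∑ e, (n t l e : ℝ) * mrow q N (Ch.μ e) j.succ : ℝ)) : ℂ) =
        ∑ e, (n t l e : ℂ) * (mrow q N (Ch.μ e) j.succ : ℂ) := by
      push_cast
      rfl
    rw [h4, e1, Finset.mul_sum, ← Finset.sum_sub_distrib]
    have e2 : ∀ e, (n t l e : ℂ) * lw (PX e) j θ - 2 * Real.pi * Complex.I *
        ((n t l e : ℂ) * (mrow q N (Ch.μ e) j.succ : ℂ)) =
        (n t l e : ℂ) * (lw (PX e) j θ - 2 * Real.pi * Complex.I *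
          mrow q N (Ch.μ e) j.succ) := by
      intro e
      ring
    simp only [e2]
    refine lt_of_le_of_lt ((norm_sum_le _ _).trans ?_) (hδle t)
    calc ∑ e, ‖(n t l e : ℂ) * (lw (PX e) j θ - 2 * Real.pi * Complex.I *
          mrow q N (Ch.μ e) j.succ)‖ ≤
          ∑ e, |(n t l e : ℝ)| * δ0 := Finset.sum_le_sum fun e _ => by
            rw [norm_mul, Complex.norm_intCast]
            exact mul_le_mul_of_nonneg_left ((hest e θ).2 j) (abs_nonneg _)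
      _ = (∑ e, |(n t l e : ℝ)|) * δ0 := by rw [Finset.sum_mul]
      _ ≤ Nn * δ0 := mul_le_mul_of_nonneg_right (hNnle t l) hδ0pos.le

end main

end Pool.Agent.U374.Mn
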