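import Pool.Agent.U374.Mn.TDef
import Pool.Agent.U374.Mn.Unr
set_option autoImplicit false

/-!
The symbols of the hypersurfaces of triangular systems of monic polynomials are unramified.
-/

namespace Pool.Agent.U374.Mn

open scoped WithZero

open Pool.Agent.TH826.MK

open Pool.Agent.U374.Tr (val_le)

open Pool.Agent.U374.Tw

open Sys (oneUnit_div oneUnit_pow)

namespace HSys

variable {K : Type*} [Field K] {d : ℕ} {A : HSys K d}

theorem sym_mem_unitPart (hA : A.Admissible) {lam : K} (hlam : IsIntegral ℤ lam)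
    (T : A.Sel) {L : Type*} [Field L] (f : A.Ring lam →+* L)
    (v : Valuation L ℤᵐ⁰) :
    KQ.map (d + 1) f (A.sym lam T) ∈ unitPart v (d + 1) := by
  classical
  set F : MvPolynomial (Fin (d + 1)) K →+* L := f.comp (hx (A.Phi lam) (A.Phi lam)) with hF
  have hc : ∀ x : K, IsIntegral ℤ x → v (F (MvPolynomial.C x)) ≤ 1 := fun x hx =>
    Pool.Agent.TH826.MK.val_le_one_of_integral v (map_isIntegral_int (F.comp MvPolynomial.C) hx)
  -- the entries
  set b : A.Ix → Lˣ := fun e => Units.map (f : A.Ring lam →* L) (A.L lam e) with hb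
  have hbv : ∀ e, (b e : L) = F (A.P e.1 e.2) := fun e => rfl
  set a : Fin (d + 1) → Lˣ := fun j =>
    b ⟨j, (T j).succ⟩ ^ A.deg j 0 / b ⟨j, 0⟩ ^ A.deg j (T j).succ with ha
  have hmap : KQ.map (d + 1) f (A.sym lam T) = symb a := by
    unfold sym
    rw [KQ.map_symb]
    congr 1
    funext k
    unfold u
    rw [map_div, map_pow, map_pow]
  rw [hmap]
  by_cases hB : ∃ k, 1 < v (F (MvPolynomial.X k))
  · -- a pole
    obtain ⟨j, hj, hmin⟩ := Finset.exists_min_image
      (Finset.univ.filter fun k => 1 < v (F (MvPolynomial.X k))) (fun k => (k : ℕ))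
      (by
        obtain ⟨k1, hk1⟩ := hB
        exact ⟨k1, Finset.mem_filter.2 ⟨Finset.mem_univ _, hk1⟩⟩)
    have hjv : 1 < v (F (MvPolynomial.X j)) := (Finset.mem_filter.1 hj).2
    have hlow : ∀ l, l < j → v (F (MvPolynomial.X l)) ≤ 1 := by
      intro l hl
      by_contra hcon
      have h1 := hmin l (Finset.mem_filter.2 ⟨Finset.mem_univ _, not_le.1 hcon⟩)
      have h2 : (l : ℕ) < j := hl
      omega
    have hX0 : F (MvPolynomial.X j) ≠ 0 := fun h => by
      rw [h, map_zero] at hjv
      exact absurd hjv (not_lt.2 zero_le_one)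
    set x : Lˣ := Units.mk0 _ hX0 with hx
    have hone : ∀ i, v (((b ⟨j, i⟩ / x ^ A.deg j i : Lˣ) : L) - 1) < 1 := by
      intro i
      have h0 : (((x ^ A.deg j i : Lˣ)) : L) ≠ 0 := (x ^ A.deg j i).ne_zero
      have h1 : v (F (A.P j i - MvPolynomial.X j ^ A.deg j i)) <
          v (F (MvPolynomial.X j)) ^ A.deg j i := by
        refine val_lt_pow F v (fun k => ?_) (fun l hl => ?_) (hA.monic j i) hjv hlow
        · rw [MvPolynomial.coeff_sub, MvPolynomial.coeff_X_pow]
          refine (hA.P_int j i k).sub ?_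
          split_ifs
          · exact isIntegral_one
          · exact isIntegral_zero
        · rcases Finset.mem_union.1 (MvPolynomial.vars_sub_subset (p := A.P j i) (q := _) hl)
            with h2 | h2
          · exact hA.P_vars j i l h2
          · have h3 := MvPolynomial.vars_pow _ _ h2
            rw [MvPolynomial.vars_X, Finset.mem_singleton] at h3
            exact h3.le
      rw [Units.val_div_eq_div_val, div_sub_one h0, map_div₀, hbv, Units.val_pow_eq_pow_val, hx,
        Units.val_mk0, ← map_pow F, ← map_sub, map_pow F, map_pow]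
      rwa [div_lt_one₀ (pow_pos (zero_lt_one.trans hjv) _)]
    refine mem_unitPart_of_oneUnit' v j a ?_
    have e : a j =
        (b ⟨j, (T j).succ⟩ / x ^ A.deg j (T j).succ) ^ A.deg j 0 /
          (b ⟨j, 0⟩ / x ^ A.deg j 0) ^ A.deg j (T j).succ := by
      rw [ha, div_pow, div_pow, ← pow_mul, ← pow_mul, mul_comm (A.deg j 0)]
      rw [div_div_div_cancel_right]
    rw [e]
    exact oneUnit_div v (oneUnit_pow v (hone _) _) (oneUnit_pow v (hone _) _)
  · push Not at hB
    have hP : ∀ e : A.Ix, v (F (A.P e.1 e.2)) ≤ 1 := fun e =>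
      val_le F v (hA.P_int e.1 e.2) fun l _ => hB l
    have hgv : v (F A.g) ≤ 1 := val_le F v hA.g_int fun l _ => hB l
    have hFP : (1 : ℤᵐ⁰) =
        v (F (MvPolynomial.C lam)) * (v (F A.g) *
          ∏ e : A.Ix, v (F (A.P e.1 e.2)) ^ (A.w e.1 e.2 + 1)) := by
      have h0 : F (A.Phi lam) = 1 :=
        (congrArg f (hx_Phi (A.Phi lam) (A.Phi lam))).trans (map_one f)
      have h1 : F (MvPolynomial.C lam * (A.g * ∏ e : A.Ix, A.P e.1 e.2 ^ (A.w e.1 e.2 + 1))) = 1 :=
        h0
      rw [← map_one v, ← h1]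
      simp only [map_mul, map_prod, map_pow]
    have hunit : ∀ e : A.Ix, v (F (A.P e.1 e.2)) = 1 := by
      intro e
      refine le_antisymm (hP e) ?_
      rw [hFP, ← Finset.mul_prod_erase _ _ (Finset.mem_univ e)]
      have h1 : ∏ x ∈ Finset.univ.erase e, v (F (A.P x.1 x.2)) ^ (A.w x.1 x.2 + 1) ≤ 1 :=
        Finset.prod_le_one' fun j _ => pow_le_one' (hP j) _
      have h2 : v (F (A.P e.1 e.2)) ^ (A.w e.1 e.2 + 1) ≤ v (F (A.P e.1 e.2)) := by
        rw [pow_succ]
        exact mul_le_of_le_one_left' (pow_le_one' (hP e) _)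
      calc v (F (MvPolynomial.C lam)) * (v (F A.g) * (v (F (A.P e.1 e.2)) ^ (A.w e.1 e.2 + 1) *
            ∏ x ∈ Finset.univ.erase e, v (F (A.P x.1 x.2)) ^ (A.w x.1 x.2 + 1)))
          ≤ 1 * (1 * (v (F (A.P e.1 e.2)) * 1)) :=
            mul_le_mul' (hc _ hlam) (mul_le_mul' hgv (mul_le_mul' h2 h1))
        _ = v (F (A.P e.1 e.2)) := by rw [one_mul, one_mul, mul_one]
    refine Submodule.subset_span ⟨a, fun k => ?_, rfl⟩
    rw [ha, Units.val_div_eq_div_val, map_div₀, Units.val_pow_eq_pow_val,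
      Units.val_pow_eq_pow_val, map_pow, map_pow, hbv, hbv, hunit, hunit, one_pow, one_pow,
      div_one]

theorem unram.{u, v} {K : Type u} [Field K] {d : ℕ} {A : HSys K d} (hA : A.Admissible) {lam : K}
    (hlam : IsIntegral ℤ lam) (T : A.Sel) (L : Type v) [Field L] (f : A.Ring lam →+* L) :
    KQ.map _ f (A.sym lam T) ∈ Unramified L _ := by
  unfold Unramified
  simp only [Submodule.mem_iInf]
  intro v _
  exact sym_mem_unitPart hA hlam T f v

end HSys

end Pool.Agent.U374.Mn
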