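import Pool.Agent.U374.Mn.Main
import Pool.Agent.U374.Mn.TUnr
import Pool.Agent.U374.Mn.TTor
import Pool.Agent.Y797.GC.Sard
set_option autoImplicit false

/-!
The regulators of the symbols on the hypersurfaces of triangular systems of monic polynomials, and
smoothness.
-/

namespace Pool.Agent.U374.Mn

open Pool.Agent.TH826.MK

open Pool.Agent.TH826.SX (det_ne_zero_near)

open Pool.Agent.U374.Tw

namespace HSys

variable {K : Type*} [Field K] {d : ℕ} {A : HSys K d}

theorem hent_eq (lam : K) (T : A.Sel) :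
    symb (hent (A.Phi lam) (A.P_dvd lam) (Sys.nS (A := A.toSys) T)) = A.sym lam T := by
  classical
  unfold sym
  refine congrArg symb (funext fun j => ?_)
  have h1 := Sys.prod_two (G := (HOpen (A.Phi lam) (A.Phi lam))ˣ)
    (fun e : A.Ix => hdiv (A.Phi lam) (A.P_dvd lam e)) ⟨j, (T j).succ⟩ ⟨j, 0⟩
    (A.deg j 0) (A.deg j (T j).succ)
  have h2 : hent (A.Phi lam) (A.P_dvd lam) (Sys.nS (A := A.toSys) T) j =
      ∏ e : A.Ix, hdiv (A.Phi lam) (A.P_dvd lam e) ^
        ((if e = ⟨j, (T j).succ⟩ then (A.deg j 0 : ℤ) else 0) -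
          if e = ⟨j, 0⟩ then (A.deg j (T j).succ : ℤ) else 0) := by
    unfold hent Sys.nS
    refine Finset.prod_congr rfl fun e _ => ?_
    congr 1
  exact h2.trans h1

theorem exists_indep (σ : K →+* ℂ) (hA : A.Admissible) :
    ∃ C : ℝ, ∀ lam : K, C ≤ ‖σ lam‖ →
      ∃ Γ : {T : A.Sel // A.HasVertex σ T} → Torus (A.Ring lam) d,
        (∀ T θ (x : K), (Γ T).e θ (A.cst lam x) = σ x) ∧
        LinearIndependent ℝ fun (T' : {T : A.Sel // A.HasVertex σ T})
          (T : {T : A.Sel // A.HasVertex σ T}) => (Γ T).reg (A.sym lam T'.1) := by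
  classical
  set ι := {T : A.Sel // A.HasVertex σ T} with hι
  rcases isEmpty_or_nonempty ι with hemp | hne
  · exact ⟨1, fun lam _ => ⟨fun T => (hemp.false T).elim, fun T => (hemp.false T).elim,
      linearIndependent_empty_type⟩⟩
  choose Ch hCh hCh0 using fun T : ι => exists_lchart (A := A.toSys) hA.P_vars T.2
  choose D hD0 hD using fun T : ι =>
    exists_torusHL (P := fun e : A.Ix => A.P e.1 e.2) σ (Ch T) (hCh0 T)
      (fun T' : ι => Sys.nS (A := A.toSys) T'.1)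
  have hdeg : ∏ l, (A.deg l 0 : ℝ) ≠ 0 := Finset.prod_ne_zero_iff.2 fun l _ => by
    have := hA.deg_pos l 0
    positivity
  set M0 : Matrix ι ι ℝ := Matrix.diagonal fun T => (∏ l, (A.deg l 0 : ℝ)) * D T with hM0
  have hM : M0.det ≠ 0 := by
    rw [hM0, Matrix.det_diagonal]
    exact Finset.prod_ne_zero_iff.2 fun T _ => mul_ne_zero hdeg (hD0 T)
  obtain ⟨δ, hδ, hdet⟩ := det_ne_zero_near M0 hM
  choose Λ hΛ1 hΛ using fun T : ι => hD T (δ / 2) (by linarith)
  set C : ℝ := ∑ T, |Λ T| + 2 with hC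
  have hsum : 0 ≤ ∑ T, |Λ T| := Finset.sum_nonneg fun J _ => abs_nonneg _
  have hΛC : ∀ T, Λ T ≤ C := by
    intro T
    have h1 := Finset.single_le_sum (f := fun T => |Λ T|) (fun T _ => abs_nonneg _)
      (Finset.mem_univ T)
    have h2 := le_abs_self (Λ T)
    have h3 : |Λ T| ≤ ∑ T, |Λ T| := h1
    linarith
  refine ⟨C, fun lam hlam => ?_⟩
  have hl0 : σ lam ≠ 0 := by
    intro h0
    rw [h0, norm_zero] at hlam
    linarith
  choose Γ hΓ1 hΓ2 using fun T => hΛ T lam (A.Phi lam) (A.P_dvd lam) ((hΛC T).trans hlam)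
    (fun x h1 _ => by
      unfold Phi
      rw [MvPolynomial.eval₂_mul, MvPolynomial.eval₂_C]
      exact mul_ne_zero hl0 h1)
  refine ⟨Γ, hΓ1, ?_⟩
  have hs : -Real.log ‖σ lam‖ ≠ 0 := by
    have : 0 < Real.log ‖σ lam‖ := Real.log_pos (by linarith)
    linarith
  set t : ℝ := -Real.log ‖σ lam‖ with htdef
  have h1 : (Matrix.of fun T T' : ι => (Γ T).reg (A.sym lam T'.1) / t).det ≠ 0 := by
    refine hdet _ fun T T' => ?_
    have h3 := hΓ2 T T'
    have hl := Sys.leadG_nS (A := A.toSys) (hCh T) T'.1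
    have h3' : |(Γ T).reg (A.sym lam T'.1) / t -
        (if T.1 = T'.1 then ∏ l, (A.deg l 0 : ℝ) else 0) * D T| ≤ δ / 2 := by
      rw [← hent_eq]
      exact (congrArg (fun c : ℝ => |(Γ T).reg (symb (hent (A.Phi lam) (A.P_dvd lam)
        (Sys.nS (A := A.toSys) T'.1))) / t - c * D T|) hl).symm.le.trans h3
    have h4 : (if T.1 = T'.1 then ∏ l, (A.deg l 0 : ℝ) else 0) * D T = M0 T T' := by
      by_cases h : T = T'
      · subst h
        rw [if_pos rfl, hM0, Matrix.diagonal_apply_eq]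
      · rw [if_neg (fun h' => h (Subtype.ext h')), zero_mul, hM0, Matrix.diagonal_apply_ne _ h]
    rw [h4] at h3'
    rw [Matrix.of_apply]
    exact lt_of_le_of_lt h3' (show δ / 2 < δ by linarith)
  have h2 : (Matrix.of fun T T' : ι => (Γ T).reg (A.sym lam T'.1)) =
      t • (Matrix.of fun T T' : ι => (Γ T).reg (A.sym lam T'.1) / t) := by
    ext T T'
    rw [Matrix.smul_apply, Matrix.of_apply, Matrix.of_apply, smul_eq_mul]
    field_simp
  have h5 : (Matrix.of fun T T' : ι => (Γ T).reg (A.sym lam T'.1)).det ≠ 0 := by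
    rw [h2, Matrix.det_smul]
    exact mul_ne_zero (pow_ne_zero _ hs) h1
  exact Matrix.linearIndependent_cols_iff_isUnit.2
    ((Matrix.isUnit_iff_isUnit_det _).2 (isUnit_iff_ne_zero.2 h5))

open MvPolynomial in
theorem exists_smooth (A : HSys K d) (σ : K →+* ℂ) :
    ∃ Λ : ℝ, 1 < Λ ∧ ∀ lam : K, Λ ≤ ‖σ lam‖ → ∀ x : Fin (d + 1) → ℂ,
      eval₂ σ x (A.Phi lam) = 1 → ∃ i, eval₂ σ x (pderiv i (A.Phi lam)) ≠ 0 := by
  have heval : ∀ (x : Fin (d + 1) → ℂ) (p : MvPolynomial (Fin (d + 1)) K),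
      MvPolynomial.eval x (map σ p) = eval₂ σ x p := fun x p => by rw [MvPolynomial.eval_map]
  obtain ⟨ε, hε, h⟩ := Pool.Agent.Y797.GC.exists_level (map σ A.toSys.Phi0)
  have hinv : 0 < 1 / ε := by positivity
  refine ⟨1 / ε + 2, by linarith, fun lam hlam x hx => ?_⟩
  have hln : 0 < ‖σ lam‖ := by linarith
  have hl0 : σ lam ≠ 0 := norm_pos_iff.1 hln
  have hη : ‖(σ lam)⁻¹‖ < ε := by
    rw [norm_inv, inv_lt_comm₀ hln hε, ← one_div]
    linarith
  have h0 : A.Phi lam = C lam * A.toSys.Phi0 := rfl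
  have h1 : eval₂ σ x (A.Phi lam) = σ lam * eval₂ σ x A.toSys.Phi0 := by
    rw [h0, MvPolynomial.eval₂_mul, MvPolynomial.eval₂_C]
  rw [h1] at hx
  obtain ⟨i, hi⟩ := h _ (inv_ne_zero hl0) hη x (by
    rw [heval]
    exact eq_inv_of_mul_eq_one_right hx)
  refine ⟨i, ?_⟩
  have h2 : pderiv i (A.Phi lam) = C lam * pderiv i A.toSys.Phi0 := by
    rw [h0, Derivation.leibniz, MvPolynomial.pderiv_C, smul_zero, add_zero, smul_eq_mul]
  rw [h2, MvPolynomial.eval₂_mul, MvPolynomial.eval₂_C]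
  refine mul_ne_zero hl0 ?_
  rw [MvPolynomial.pderiv_map, heval] at hi
  exact hi

end HSys

end Pool.Agent.U374.Mn
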